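import Pool.Agent.helper95.T5.SpecE

set_option autoImplicit false

/-!
# T5 (MP_16912e_nt), row ARC: equidistribution in arcs with sharp frequency cut off
-/

namespace Pool.Agent.T5

open Finset NumberField Pool.Agent.helper3.FT Pool.Agent.helper47.RA

theorem ARC_norm_neg {ι : Type} (s : Finset ι) (x : ι → ℝ) (h : ℤ) :
    ‖∑ i ∈ s, e ((-h : ℤ) * x i)‖ = ‖∑ i ∈ s, e (h * x i)‖ := by
  have e1 : ∀ y : ℝ, e (-y) = (starRingEnd ℂ) (e y) := by
    intro y
    unfold e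
    rw [← Complex.exp_conj]
    simp only [map_mul, Complex.conj_I, Complex.conj_ofReal, map_ofNat, Complex.ofReal_neg]
    ring_nf
  have e2 : ∑ i ∈ s, e ((-h : ℤ) * x i) = (starRingEnd ℂ) (∑ i ∈ s, e (h * x i)) := by
    rw [map_sum]
    refine Finset.sum_congr rfl fun i _ => ?_
    rw [← e1]
    congr 1
    push_cast
    ring
  rw [e2, Complex.norm_conj]

/-- the exponential sum bound for a kernel -/
theorem ARC_sum {ι : Type} (s : Finset ι) (x : ι → ℝ) (H : ℕ) (w : ℝ) (a : ℤ → ℂ) (f : ℝ → ℝ)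
    (hf : ∀ x : ℝ, (f x : ℂ) = ∑ h ∈ Ioo (-(2 * H : ℤ)) (2 * H), a h * e (h * x))
    (hH : 1 ≤ H) (hw : 0 ≤ w) (h0 : a 0 = (w : ℂ)) (ha : ∀ h, ‖a h‖ ≤ w) :
    |∑ i ∈ s, f (x i) - w * s.card| ≤ 2 * w * ∑ h ∈ Icc 1 (2 * H), ‖∑ i ∈ s, e (h * x i)‖ := by
  have hmem : (0 : ℤ) ∈ Ioo (-(2 * H : ℤ)) (2 * H) := by
    rw [Finset.mem_Ioo]; omega
  have e1 : ((∑ i ∈ s, f (x i) - w * s.card : ℝ) : ℂ) =
      ∑ h ∈ (Ioo (-(2 * H : ℤ)) (2 * H)).erase 0, a h * ∑ i ∈ s, e (h * x i) := by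
    have e2 : ((∑ i ∈ s, f (x i) : ℝ) : ℂ) =
        ∑ h ∈ Ioo (-(2 * H : ℤ)) (2 * H), a h * ∑ i ∈ s, e (h * x i) := by
      push_cast
      rw [Finset.sum_congr rfl fun i _ => hf (x i), Finset.sum_comm]
      refine Finset.sum_congr rfl fun h _ => ?_
      rw [Finset.mul_sum]
    rw [Complex.ofReal_sub, e2, ← Finset.add_sum_erase _ _ hmem, h0]
    have e3 : ∑ i ∈ s, e (((0 : ℤ) : ℝ) * x i) = (s.card : ℂ) := by
      have : ∀ i ∈ s, e (((0 : ℤ) : ℝ) * x i) = 1 := by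
        intro i _
        unfold e
        simp
      rw [Finset.sum_congr rfl this]
      simp
    rw [e3]
    push_cast
    ring
  have e4 : |∑ i ∈ s, f (x i) - w * s.card| = ‖((∑ i ∈ s, f (x i) - w * s.card : ℝ) : ℂ)‖ := by
    rw [Complex.norm_real, Real.norm_eq_abs]
  rw [e4, e1]
  refine (norm_sum_le _ _).trans ?_
  have e5 : ∀ h ∈ (Ioo (-(2 * H : ℤ)) (2 * H)).erase 0, ‖a h * ∑ i ∈ s, e (h * x i)‖ ≤
      w * ‖∑ i ∈ s, e ((h.natAbs : ℝ) * x i)‖ := by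
    intro h _
    rw [norm_mul]
    refine mul_le_mul (ha h) ?_ (norm_nonneg _) hw
    rcases Int.natAbs_eq h with hh | hh
    · have : ((h.natAbs : ℕ) : ℝ) = (h : ℝ) := by
        have h2 : (((h.natAbs : ℕ) : ℤ) : ℝ) = ((h : ℤ) : ℝ) := by rw [← hh]
        rw [← h2, Int.cast_natCast]
      rw [this]
    · have h1 := ARC_norm_neg s x h
      have : ((h.natAbs : ℕ) : ℝ) = ((-h : ℤ) : ℝ) := by
        have h3 : ((h.natAbs : ℕ) : ℤ) = -h := by omega
        rw [← h3, Int.cast_natCast]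
      rw [this, h1]
  refine (Finset.sum_le_sum e5).trans ?_
  rw [← Finset.mul_sum]
  have e6 : ∑ h ∈ (Ioo (-(2 * H : ℤ)) (2 * H)).erase 0, ‖∑ i ∈ s, e ((h.natAbs : ℝ) * x i)‖ ≤
      2 * ∑ h ∈ Icc 1 (2 * H), ‖∑ i ∈ s, e (h * x i)‖ := by
    have hsub : (Ioo (-(2 * H : ℤ)) (2 * H)).erase 0 ⊆
        (Icc 1 (2 * H)).image (fun n : ℕ => (n : ℤ)) ∪ (Icc 1 (2 * H)).image (fun n : ℕ => -(n : ℤ)) := by
      intro h hh
      rw [Finset.mem_erase, Finset.mem_Ioo] at hh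
      rw [Finset.mem_union, Finset.mem_image, Finset.mem_image]
      rcases lt_or_gt_of_ne hh.1 with h1 | h1
      · right
        exact ⟨h.natAbs, by rw [Finset.mem_Icc]; omega, by omega⟩
      · left
        exact ⟨h.natAbs, by rw [Finset.mem_Icc]; omega, by omega⟩
    refine (Finset.sum_le_sum_of_subset_of_nonneg hsub fun _ _ _ => norm_nonneg _).trans ?_
    rw [Finset.sum_union, Finset.sum_image, Finset.sum_image]
    · have e7 : ∑ n ∈ Icc 1 (2 * H), ‖∑ i ∈ s, e ((((n : ℕ) : ℤ).natAbs : ℝ) * x i)‖ =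
          ∑ h ∈ Icc 1 (2 * H), ‖∑ i ∈ s, e (h * x i)‖ := by
        refine Finset.sum_congr rfl fun n _ => ?_
        rw [Int.natAbs_natCast]
      have e8 : ∑ n ∈ Icc 1 (2 * H), ‖∑ i ∈ s, e (((-((n : ℕ) : ℤ)).natAbs : ℝ) * x i)‖ =
          ∑ h ∈ Icc 1 (2 * H), ‖∑ i ∈ s, e (h * x i)‖ := by
        refine Finset.sum_congr rfl fun n _ => ?_
        rw [Int.natAbs_neg, Int.natAbs_natCast]
      rw [e7, e8]
      linarith
    · intro p _ q _ h
      have h' : -(p : ℤ) = -(q : ℤ) := h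
      omega
    · intro p _ q _ h
      have h' : (p : ℤ) = (q : ℤ) := h
      omega
    · rw [Finset.disjoint_left]
      intro h h1 h2
      rw [Finset.mem_image] at h1 h2
      obtain ⟨p, hp, hp2⟩ := h1
      obtain ⟨q, hq, hq2⟩ := h2
      rw [Finset.mem_Icc] at hp hq
      omega
  calc w * ∑ h ∈ (Ioo (-(2 * H : ℤ)) (2 * H)).erase 0, ‖∑ i ∈ s, e ((h.natAbs : ℝ) * x i)‖
      ≤ w * (2 * ∑ h ∈ Icc 1 (2 * H), ‖∑ i ∈ s, e (h * x i)‖) := mul_le_mul_of_nonneg_left e6 hw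
    _ = _ := by ring

/-- the sum of the weights -/
theorem ARC_wsum (b : ℝ) (hb : 0 < b) (m : ℕ) (hm : 1 ≤ m) :
    ∑ j ∈ Icc 1 m, 1 / (((j : ℝ) - 1 + b) ^ 3) ≤ 1 / b ^ 3 + 2 - 2 / m := by
  induction m, hm using Nat.le_induction with
  | base =>
    simp
  | succ m hm ih =>
    rw [Finset.sum_Icc_succ_top (by omega)]
    have hm0 : (1 : ℝ) ≤ m := by exact_mod_cast hm
    have h1 : 1 / (((m + 1 : ℕ) : ℝ) - 1 + b) ^ 3 ≤ 1 / (m : ℝ) ^ 3 := by
      push_cast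
      apply one_div_le_one_div_of_le (by positivity)
      apply pow_le_pow_left₀ (by positivity)
      linarith
    have h2 : 1 / (m : ℝ) ^ 3 ≤ 2 / m - 2 / ((m + 1 : ℕ) : ℝ) := by
      push_cast
      have h3 : 2 / (m : ℝ) - 2 / ((m : ℝ) + 1) = 2 / (m * (m + 1)) := by
        field_simp
        ring
      rw [h3, div_le_div_iff₀ (by positivity) (by positivity)]
      nlinarith [mul_nonneg (sub_nonneg.2 hm0) (sub_nonneg.2 hm0), mul_pos (by linarith : (0:ℝ) < m) (by linarith : (0:ℝ) < m)]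
    linarith

open Classical in
/-- the points in an arc -/
noncomputable def ARC_A {ι : Type} (s : Finset ι) (x : ι → ℝ) (l c : ℝ) : Finset ι :=
  s.filter (fun i => ∃ z : ℤ, c ≤ x i - z ∧ x i - z < c + l)

theorem ARC_small (l b : ℝ) (H : ℕ) (hl : 0 < l) (hb : 0 < b) (hR : 1 / b ^ 2 ≤ H * l) :
    (0 : ℝ) < H ∧ 1 / ((H : ℝ) * l * b) ^ 3 ≤ b ^ 3 := by
  have h1 : (0 : ℝ) < 1 / b ^ 2 := by positivity
  have h2 : (0 : ℝ) < H * l := lt_of_lt_of_le h1 hR
  have hH : (0 : ℝ) < H := by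
    by_contra hcon
    have : (H : ℝ) * l ≤ 0 := mul_nonpos_of_nonpos_of_nonneg (not_lt.1 hcon) hl.le
    linarith
  refine ⟨hH, ?_⟩
  have h3 : 1 / b ≤ (H : ℝ) * l * b := by
    have h4 : 1 / b = 1 / b ^ 2 * b := by field_simp
    rw [h4]
    exact mul_le_mul_of_nonneg_right hR hb.le
  have h5 : (1 / b) ^ 3 ≤ ((H : ℝ) * l * b) ^ 3 := pow_le_pow_left₀ (by positivity) h3 3
  rw [div_le_iff₀ (by positivity)]
  calc (1 : ℝ) = b ^ 3 * (1 / b) ^ 3 := by field_simp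
    _ ≤ b ^ 3 * ((H : ℝ) * l * b) ^ 3 := mul_le_mul_of_nonneg_left h5 (by positivity)

/-- the upper bound -/
theorem ARC_up (hAKR : AKR_stmt) {ι : Type} (s : Finset ι) (x : ι → ℝ) (c l b : ℝ) (H : ℕ)
    (hl : 0 < l) (hl4 : l ≤ 1 / 4) (hb : 0 < b) (hb8 : b ≤ 1 / 8) (hR : 1 / b ^ 2 ≤ H * l) :
    ((ARC_A s x l c).card : ℝ) ≤ (1 + 3 * b) * (s.card * l) +
      3 * (l * ∑ h ∈ Icc 1 (2 * H), ‖∑ i ∈ s, e (h * x i)‖) := by
  classical
  obtain ⟨hH, hρ⟩ := ARC_small l b H hl hb hR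
  have hH1 : 1 ≤ H := by
    have : 0 < H := by exact_mod_cast hH
    exact this
  have hbl : 0 < b * l := mul_pos hb hl
  have hbl2 : b * l ≤ 1 / 8 * l := mul_le_mul_of_nonneg_right hb8 hl.le
  obtain ⟨a, f, hf, hf01, h0, ha, h3, -⟩ := hAKR H (c - b * l) (c + l + b * l) hH1 (by linarith)
    (by linarith)
  have hwe : c + l + b * l - (c - b * l) = (1 + 2 * b) * l := by ring
  rw [hwe] at h0 ha
  have hs := ARC_sum s x H ((1 + 2 * b) * l) a f hf hH1 (by positivity) h0 ha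
  set T : ℝ := ∑ h ∈ Icc 1 (2 * H), ‖∑ i ∈ s, e (h * x i)‖ with hT
  have hT0 : 0 ≤ T := Finset.sum_nonneg fun _ _ => norm_nonneg _
  set A := ARC_A s x l c with hA
  have hAs : A ⊆ s := Finset.filter_subset _ _
  have h4 : ∀ i ∈ A, 1 - b ^ 3 / 16 ≤ f (x i) := by
    intro i hi
    obtain ⟨-, z, hz1, hz2⟩ := Finset.mem_filter.1 hi
    have h5 := h3 (b * l) (x i) hbl ⟨z, by linarith, by linarith⟩
    have h6 : 1 / (16 * (H : ℝ) ^ 3 * (b * l) ^ 3) = 1 / ((H : ℝ) * l * b) ^ 3 / 16 := by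
      field_simp
    rw [h6] at h5
    linarith
  have h7 : (A.card : ℝ) * (1 - b ^ 3 / 16) ≤ ∑ i ∈ s, f (x i) := by
    calc (A.card : ℝ) * (1 - b ^ 3 / 16) = ∑ i ∈ A, (1 - b ^ 3 / 16) := by
          rw [Finset.sum_const, nsmul_eq_mul]
      _ ≤ ∑ i ∈ A, f (x i) := Finset.sum_le_sum h4
      _ ≤ ∑ i ∈ s, f (x i) :=
          Finset.sum_le_sum_of_subset_of_nonneg hAs fun i _ _ => (hf01 (x i)).1
  have h8 := (abs_le.1 hs).2
  have hn : (0 : ℝ) ≤ s.card * l := by positivity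
  have hE : 0 ≤ l * T := by positivity
  have hb3 : b ^ 3 / 16 * (1 + 3 * b) ≤ b := by
    have : b ^ 2 ≤ 1 := by nlinarith
    have h9 : b ^ 3 * (1 + 3 * b) ≤ b * 16 := by
      have h10 : b ^ 3 * (1 + 3 * b) = b * (b ^ 2 * (1 + 3 * b)) := by ring
      rw [h10]
      exact mul_le_mul_of_nonneg_left (by nlinarith) hb.le
    linarith
  have hb3' : b ^ 3 / 16 ≤ 1 / 100 := by
    have : b ^ 3 ≤ (1 / 8) ^ 3 := pow_le_pow_left₀ hb.le hb8 3
    linarith
  have h11 : (A.card : ℝ) * (1 - b ^ 3 / 16) ≤ ((1 + 3 * b) * (s.card * l) + 3 * (l * T)) * (1 - b ^ 3 / 16) := by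
    have e1 : (1 + 2 * b) * (s.card * l) ≤ (1 + 3 * b) * (s.card * l) * (1 - b ^ 3 / 16) := by
      have : (1 + 2 * b) ≤ (1 + 3 * b) * (1 - b ^ 3 / 16) := by linarith
      calc (1 + 2 * b) * (s.card * l) ≤ ((1 + 3 * b) * (1 - b ^ 3 / 16)) * (s.card * l) :=
            mul_le_mul_of_nonneg_right this hn
        _ = _ := by ring
    have e2 : 2 * (1 + 2 * b) * (l * T) ≤ 3 * (l * T) * (1 - b ^ 3 / 16) := by
      have : 2 * (1 + 2 * b) ≤ 3 * (1 - b ^ 3 / 16) := by linarith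
      calc 2 * (1 + 2 * b) * (l * T) ≤ (3 * (1 - b ^ 3 / 16)) * (l * T) :=
            mul_le_mul_of_nonneg_right this hE
        _ = _ := by ring
    have e3 : (1 + 2 * b) * l * (s.card : ℝ) = (1 + 2 * b) * (s.card * l) := by ring
    have e4 : 2 * ((1 + 2 * b) * l) * T = 2 * (1 + 2 * b) * (l * T) := by ring
    rw [e3, e4] at h8
    linarith
  exact le_of_mul_le_mul_right h11 (by linarith)

/-- the position of a point outside of the arc -/
theorem ARC_pos (y c l b : ℝ) (hl : 0 < l) (hb : 0 < b) (hy1 : c + l / 2 - 1 / 2 ≤ y)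
    (hy2 : y ≤ c + l / 2 + 1 / 2) (hA : ¬ (c ≤ y ∧ y < c + l)) :
    ∃ j : ℕ, 1 ≤ j ∧ (j : ℝ) ≤ 1 / l + 1 ∧
      ((c + j * l ≤ y ∧ y < c + j * l + l) ∨ (c + -(j * l) ≤ y ∧ y < c + -(j * l) + l)) ∧
      ((c + j * l ≤ y ∧ y - 1 ≤ c - (j - 1) * l) ∨ (y ≤ c - (j - 1) * l ∧ c + j * l ≤ y + 1)) := by
  rcases lt_or_ge y c with h | h
  · -- to the left
    refine ⟨⌈(c - y) / l⌉₊, ?_, ?_, Or.inr ?_, Or.inr ?_⟩
    · rw [Nat.one_le_ceil_iff]
      exact div_pos (by linarith) hl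
    · have h1 := (Nat.ceil_lt_add_one (a := (c - y) / l) (div_nonneg (by linarith) hl.le)).le
      refine h1.trans ?_
      have : (c - y) / l ≤ 1 / l := div_le_div_of_nonneg_right (by linarith) hl.le
      linarith
    · have h1 := Nat.le_ceil ((c - y) / l)
      have h2 := Nat.ceil_lt_add_one (a := (c - y) / l) (div_nonneg (by linarith) hl.le)
      rw [div_le_iff₀ hl] at h1
      have h3 : (⌈(c - y) / l⌉₊ : ℝ) * l < c - y + l := by
        calc (⌈(c - y) / l⌉₊ : ℝ) * l < ((c - y) / l + 1) * l := mul_lt_mul_of_pos_right h2 hl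
          _ = c - y + l := by field_simp
      constructor <;> linarith
    · have h2 := Nat.ceil_lt_add_one (a := (c - y) / l) (div_nonneg (by linarith) hl.le)
      have h3 : (⌈(c - y) / l⌉₊ : ℝ) * l < c - y + l := by
        calc (⌈(c - y) / l⌉₊ : ℝ) * l < ((c - y) / l + 1) * l := mul_lt_mul_of_pos_right h2 hl
          _ = c - y + l := by field_simp
      constructor <;> linarith
  · have h' : c + l ≤ y := by
      by_contra hcon
      exact hA ⟨h, not_le.1 hcon⟩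
    have h1 := Nat.floor_le (a := (y - c) / l) (div_nonneg (by linarith) hl.le)
    have h2 := Nat.lt_floor_add_one ((y - c) / l)
    rw [le_div_iff₀ hl] at h1
    rw [div_lt_iff₀ hl] at h2
    refine ⟨⌊(y - c) / l⌋₊, ?_, ?_, Or.inl ?_, Or.inl ?_⟩
    · rw [Nat.one_le_floor_iff, le_div_iff₀ hl]
      linarith
    · refine (Nat.floor_le (div_nonneg (by linarith) hl.le)).trans ?_
      have h3 : (y - c) / l ≤ (1 + l) / l := by
        apply div_le_div_of_nonneg_right _ hl.le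
        linarith
      have h4 : (1 + l) / l = 1 / l + 1 := by field_simp
      linarith
    · constructor <;> linarith
    · constructor <;> linarith

/-- the lower bound -/
theorem ARC_low (hAKR : AKR_stmt) {ι : Type} (s : Finset ι) (x : ι → ℝ) (c l b : ℝ) (H : ℕ)
    (hl : 0 < l) (hl4 : l ≤ 1 / 4) (hb : 0 < b) (hb8 : b ≤ 1 / 8) (hR : 1 / b ^ 2 ≤ H * l) :
    (1 - 3 * b) * (s.card * l) - 3 * (l * ∑ h ∈ Icc 1 (2 * H), ‖∑ i ∈ s, e (h * x i)‖) ≤
      ((ARC_A s x l c).card : ℝ) := by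
  classical
  obtain ⟨hH, hρ⟩ := ARC_small l b H hl hb hR
  have hH1 : 1 ≤ H := by
    have : 0 < H := by exact_mod_cast hH
    exact this
  have hbl : 0 < b * l := mul_pos hb hl
  have hbl2 : b * l ≤ 1 / 8 * l := mul_le_mul_of_nonneg_right hb8 hl.le
  obtain ⟨a, f, hf, hf01, h0, ha, -, h3⟩ := hAKR H (c + b * l) (c + l - b * l) hH1 (by linarith)
    (by linarith)
  have hwe : c + l - b * l - (c + b * l) = (1 - 2 * b) * l := by ring
  rw [hwe] at h0 ha
  have hw0 : 0 ≤ (1 - 2 * b) * l := mul_nonneg (by linarith) hl.le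
  have hs := ARC_sum s x H ((1 - 2 * b) * l) a f hf hH1 hw0 h0 ha
  have hup : ∀ c' : ℝ, ((ARC_A s x l c').card : ℝ) ≤ (1 + 3 * b) * (s.card * l) +
      3 * (l * ∑ h ∈ Icc 1 (2 * H), ‖∑ i ∈ s, e (h * x i)‖) :=
    fun c' => ARC_up hAKR s x c' l b H hl hl4 hb hb8 hR
  set T : ℝ := ∑ h ∈ Icc 1 (2 * H), ‖∑ i ∈ s, e (h * x i)‖ with hT
  have hT0 : 0 ≤ T := Finset.sum_nonneg fun _ _ => norm_nonneg _
  set A := ARC_A s x l c with hA
  have hAs : A ⊆ s := Finset.filter_subset _ _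
  have hn : (0 : ℝ) ≤ s.card * l := by positivity
  have hE : 0 ≤ l * T := by positivity
  set J : ℕ := ⌈1 / l⌉₊ + 1 with hJ
  let r : ℕ → ℝ := fun j => 1 / (16 * (H : ℝ) ^ 3 * (((j : ℝ) - 1 + b) * l) ^ 3)
  have hr0 : ∀ j ∈ Icc 1 J, 0 ≤ r j := by
    intro j hj
    have : (1 : ℝ) ≤ j := by exact_mod_cast (Finset.mem_Icc.1 hj).1
    have h2 : 0 ≤ (j : ℝ) - 1 + b := by linarith
    simp only [r]
    positivity
  have hout : ∀ i ∈ s \ A, f (x i) ≤ ∑ j ∈ Icc 1 J,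
      r j * ((if i ∈ ARC_A s x l (c + j * l) then 1 else 0) +
        (if i ∈ ARC_A s x l (c + -(j * l)) then 1 else 0)) := by
    intro i hi
    rw [Finset.mem_sdiff] at hi
    have hround := abs_sub_round (x i - c - l / 2)
    rw [abs_le] at hround
    set z : ℤ := round (x i - c - l / 2) with hz
    have hnot : ¬ (c ≤ x i - z ∧ x i - z < c + l) := by
      intro hcon
      exact hi.2 (Finset.mem_filter.2 ⟨hi.1, z, hcon⟩)
    obtain ⟨j, hj1, hj2, hj3, hj4⟩ := ARC_pos (x i - z) c l b hl hb (by linarith [hround.1])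
      (by linarith [hround.2]) hnot
    have hj1' : (1 : ℝ) ≤ j := by exact_mod_cast hj1
    have hjJ : j ∈ Icc 1 J := by
      rw [Finset.mem_Icc]
      refine ⟨hj1, ?_⟩
      have h1 := Nat.le_ceil (1 / l)
      have h2 : (j : ℝ) ≤ (J : ℝ) := by
        rw [hJ]; push_cast; linarith
      exact_mod_cast h2
    have hfr : f (x i) ≤ r j := by
      refine h3 (((j : ℝ) - 1 + b) * l) (x i) (mul_pos (by linarith) hl) ?_
      intro z'
      have e1 : c + b * l - ((j : ℝ) - 1 + b) * l = c - (j - 1) * l := by ring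
      have e2 : c + l - b * l + ((j : ℝ) - 1 + b) * l = c + j * l := by ring
      rw [e1, e2]
      rcases hj4 with ⟨g1, g2⟩ | ⟨g1, g2⟩
      · rcases le_or_gt z' z with hzz | hzz
        · right
          have : (z' : ℝ) ≤ z := by exact_mod_cast hzz
          linarith
        · left
          have : (z : ℝ) + 1 ≤ z' := by exact_mod_cast hzz
          linarith
      · rcases lt_or_ge z' z with hzz | hzz
        · right
          have : (z' : ℝ) + 1 ≤ z := by exact_mod_cast hzz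
          linarith
        · left
          have : (z : ℝ) ≤ z' := by exact_mod_cast hzz
          linarith
    have hind : (1 : ℝ) ≤ (if i ∈ ARC_A s x l (c + j * l) then 1 else 0) +
        (if i ∈ ARC_A s x l (c + -(j * l)) then 1 else 0) := by
      rcases hj3 with g | g
      · have : i ∈ ARC_A s x l (c + j * l) := Finset.mem_filter.2 ⟨hi.1, z, g⟩
        rw [if_pos this]
        split_ifs <;> norm_num
      · have : i ∈ ARC_A s x l (c + -(j * l)) := Finset.mem_filter.2 ⟨hi.1, z, g⟩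
        rw [if_pos this]
        split_ifs <;> norm_num
    have hterm := Finset.single_le_sum (f := fun j : ℕ =>
      r j * ((if i ∈ ARC_A s x l (c + j * l) then 1 else 0) +
        (if i ∈ ARC_A s x l (c + -(j * l)) then 1 else 0))) (s := Icc 1 J)
      (fun k hk => mul_nonneg (hr0 k hk) (by split_ifs <;> norm_num)) hjJ
    refine le_trans ?_ hterm
    calc f (x i) ≤ r j * 1 := by rw [mul_one]; exact hfr
      _ ≤ _ := mul_le_mul_of_nonneg_left hind (hr0 j hjJ)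
  have hrsum : ∑ j ∈ Icc 1 J, r j ≤ b ^ 3 / 8 := by
    have e1 : ∀ j ∈ Icc 1 J, r j = 1 / ((H : ℝ) * l) ^ 3 / 16 * (1 / (((j : ℝ) - 1 + b) ^ 3)) := by
      intro j hj
      have : (1 : ℝ) ≤ j := by exact_mod_cast (Finset.mem_Icc.1 hj).1
      have h2 : (j : ℝ) - 1 + b ≠ 0 := by
        have : 0 < (j : ℝ) - 1 + b := by linarith
        exact this.ne'
      simp only [r]
      field_simp
    rw [Finset.sum_congr rfl e1, ← Finset.mul_sum]
    have h4 := ARC_wsum b hb J (by omega)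
    have h5 : (0 : ℝ) ≤ 2 / (J : ℝ) := by positivity
    have h6 : (2 : ℝ) ≤ 1 / b ^ 3 := by
      rw [le_div_iff₀ (by positivity)]
      have : b ^ 3 ≤ (1 / 8) ^ 3 := pow_le_pow_left₀ hb.le hb8 3
      linarith
    calc 1 / ((H : ℝ) * l) ^ 3 / 16 * ∑ j ∈ Icc 1 J, 1 / (((j : ℝ) - 1 + b) ^ 3)
        ≤ 1 / ((H : ℝ) * l) ^ 3 / 16 * (2 * (1 / b ^ 3)) :=
          mul_le_mul_of_nonneg_left (by linarith) (by positivity)
      _ = 1 / ((H : ℝ) * l * b) ^ 3 / 8 := by field_simp; ring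
      _ ≤ b ^ 3 / 8 := by linarith
  have hcount : ∀ c' : ℝ, ∑ i ∈ s \ A, (if i ∈ ARC_A s x l c' then (1 : ℝ) else 0) ≤
      (1 + 3 * b) * (s.card * l) + 3 * (l * T) := by
    intro c'
    refine le_trans ?_ (hup c')
    rw [← Finset.sum_filter, Finset.sum_const, nsmul_eq_mul, mul_one]
    have : (Finset.filter (fun i => i ∈ ARC_A s x l c') (s \ A)).card ≤ (ARC_A s x l c').card :=
      Finset.card_le_card fun i hi => (Finset.mem_filter.1 hi).2
    exact_mod_cast this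
  have hsumout : ∑ i ∈ s \ A, f (x i) ≤ b ^ 3 / 8 * (2 * ((1 + 3 * b) * (s.card * l) + 3 * (l * T))) := by
    refine (Finset.sum_le_sum hout).trans ?_
    rw [Finset.sum_comm]
    have e1 : ∀ j ∈ Icc 1 J, ∑ i ∈ s \ A, r j * ((if i ∈ ARC_A s x l (c + j * l) then (1 : ℝ) else 0) +
        (if i ∈ ARC_A s x l (c + -(j * l)) then 1 else 0)) ≤
        r j * (2 * ((1 + 3 * b) * (s.card * l) + 3 * (l * T))) := by
      intro j hj
      rw [← Finset.mul_sum, Finset.sum_add_distrib]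
      refine mul_le_mul_of_nonneg_left ?_ (hr0 j hj)
      linarith [hcount (c + j * l), hcount (c + -(j * l))]
    refine (Finset.sum_le_sum e1).trans ?_
    rw [← Finset.sum_mul]
    refine mul_le_mul_of_nonneg_right hrsum (by positivity)
  have hsplit : ∑ i ∈ s, f (x i) = ∑ i ∈ s \ A, f (x i) + ∑ i ∈ A, f (x i) :=
    (Finset.sum_sdiff hAs).symm
  have hin : ∑ i ∈ A, f (x i) ≤ A.card := by
    calc ∑ i ∈ A, f (x i) ≤ ∑ i ∈ A, (1 : ℝ) := Finset.sum_le_sum fun i _ => (hf01 (x i)).2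
      _ = A.card := by rw [Finset.sum_const, nsmul_eq_mul, mul_one]
  have h8 := (abs_le.1 hs).1
  have hb3 : b ^ 3 ≤ 1 / 64 * b := by
    have h9 : b ^ 3 = b ^ 2 * b := by ring
    rw [h9]
    exact mul_le_mul_of_nonneg_right (by nlinarith) hb.le
  have e1 : b ^ 3 / 8 * (2 * ((1 + 3 * b) * (s.card * l) + 3 * (l * T))) ≤ b * (s.card * l) + l * T := by
    have g1 : b ^ 3 / 8 * (2 * (1 + 3 * b)) ≤ b := by
      have : b ^ 3 / 8 * (2 * (1 + 3 * b)) ≤ (1 / 64 * b) / 8 * (2 * 2) := by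
        apply mul_le_mul (by linarith) (by linarith) (by linarith) (by positivity)
      linarith
    have g2 : b ^ 3 / 8 * (2 * 3) ≤ 1 := by linarith
    calc b ^ 3 / 8 * (2 * ((1 + 3 * b) * (s.card * l) + 3 * (l * T)))
        = (b ^ 3 / 8 * (2 * (1 + 3 * b))) * (s.card * l) + (b ^ 3 / 8 * (2 * 3)) * (l * T) := by ring
      _ ≤ b * (s.card * l) + 1 * (l * T) :=
          add_le_add (mul_le_mul_of_nonneg_right g1 hn) (mul_le_mul_of_nonneg_right g2 hE)
      _ = _ := by ring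
  have e3 : (1 - 2 * b) * l * (s.card : ℝ) = s.card * l - 2 * (b * (s.card * l)) := by ring
  have e4 : 2 * ((1 - 2 * b) * l) * T ≤ 2 * (l * T) := by
    have : 2 * ((1 - 2 * b) * l) * T = (1 - 2 * b) * (2 * (l * T)) := by ring
    rw [this]
    have h10 : (1 - 2 * b) * (2 * (l * T)) ≤ 1 * (2 * (l * T)) :=
      mul_le_mul_of_nonneg_right (by linarith) (by positivity)
    linarith
  rw [e3] at h8
  have e5 : (1 - 3 * b) * (s.card * l) = s.card * l - 3 * (b * (s.card * l)) := by ring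
  rw [e5]
  linarith

theorem ARC (hAKR : AKR_stmt) : ARC_stmt := by
  intro η hη hη1
  refine ⟨1 / (η / 8) ^ 2, 3, ?_, by norm_num, ?_⟩
  · rw [le_div_iff₀ (by positivity)]
    nlinarith
  intro ι s x c l H hl hl4 hR
  have h1 := ARC_up hAKR s x c l (η / 8) H hl hl4 (by positivity) (by linarith) hR
  have h2 := ARC_low hAKR s x c l (η / 8) H hl hl4 (by positivity) (by linarith) hR
  have e1 : ∑ h ∈ Icc 1 (2 * H), l * ‖∑ i ∈ s, e (h * x i)‖ =
      l * ∑ h ∈ Icc 1 (2 * H), ‖∑ i ∈ s, e (h * x i)‖ := by rw [Finset.mul_sum]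
  rw [e1]
  unfold ARC_A at h1 h2
  have hn : (0 : ℝ) ≤ s.card * l := by positivity
  have hηn : 0 ≤ η * (s.card * l) := by positivity
  have e2 : (1 + 3 * (η / 8)) * (s.card * l) = s.card * l + 3 / 8 * (η * (s.card * l)) := by ring
  have e3 : (1 - 3 * (η / 8)) * (s.card * l) = s.card * l - 3 / 8 * (η * (s.card * l)) := by ring
  rw [e2] at h1
  rw [e3] at h2
  rw [abs_le]
  constructor <;> linarith

end Pool.Agent.T5
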