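import Pool.Agent.helper26.T5.SpecC

set_option autoImplicit false

/-!
# T5 (MP_16912e_nt), row LTD: the tuples over one field
-/

namespace Pool.Agent.helper26.T5

open Finset NumberField Pool.Agent.helper3.FT Pool.Agent.helper47.RA Pool.Agent.T5

theorem LTD_Y_zero {K : Type} [Field K] [NumberField K] (Q : QF K) : Q.Y 0 = 0 := by
  have h := Q.Y_int_mul 0 0
  simpa using h

theorem LTD_Y_neg {K : Type} [Field K] [NumberField K] (Q : QF K) (x : 𝓞 K) :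
    Q.Y (-x) = - Q.Y x := by
  have h := Q.Y_int_mul (-1) x
  simpa using h

theorem ltd (hALG : ALG_stmt) (hLT4 : LT4) (hLFU : LFU) (hLYT : LYT) (hLAW : LAW)
    (hLEMB : LEMB) : LTD := by
  classical
  intro K _ _ Q hfin hD4 Y X B τ hY hYD hX hB hτ hdiv F hF
  have hD0 : Q.D < 0 := by omega
  obtain ⟨φ, h1, -, h3⟩ := hALG K Q hfin hD4
  obtain ⟨-, -, -, -, hnn, -⟩ := hLEMB K Q hD0
  have key : ∀ t ∈ F, ∃ (a : Ideal (𝓞 K)) (v : ℕ × 𝓞 K), a ∈ IA K Y ∧ φ a v.2 = t ∧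
      1 ≤ v.1 ∧ B < v.1 ∧ Nat.Coprime v.1 (Ideal.absNorm a) ∧
      (∀ θ : 𝓞 K, Ideal.span {θ} = a ^ 5 → (v.1 : ℤ) ∣ Q.Y θ) ∧ v.2 ∈ AL Q a X ∧ Cont1 a v.2 ∧
      (v.1 : ℤ) ∣ Q.Y v.2 := by
    intro t ht
    obtain ⟨htT, hz1, hz2, hz0, hl0, hlX, f, hf1, hBf, hdis, hcop⟩ := hF t ht
    obtain ⟨a, α, γ, hA, hg, hφ, hpr, hnp⟩ := h3 t f hf1 htT hz0 hl0 hdis hcop
    have hT := h1 a α γ hA
    rw [hg, hφ] at hT
    have hZr : ((t.2.2.2 : ℤ) : ℝ) = (Ideal.absNorm a : ℝ) := by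
      rw [hT.Z]; norm_num
    have hZ1 : 1 < t.2.2.2 := by
      have : (1 : ℝ) < (t.2.2.2 : ℝ) := by linarith
      exact_mod_cast this
    have hZD : 4 * t.2.2.2 < -Q.D := by
      have : (4 * t.2.2.2 : ℝ) < -(Q.D : ℝ) := by linarith
      exact_mod_cast this
    have hnp' : ¬ a.IsPrincipal := by
      first
        | exact hnp hZ1 hZD
        | exact hnp hZD
    have hα0 : α ≠ 0 := by
      intro h0
      have h4 := hA.n0
      rw [h0, LTD_Y_zero] at h4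
      exact lt_irrefl _ h4
    have hfα : (f : ℤ) ∣ Q.Y α := by
      rw [← hg]; exact Int.gcd_dvd_left ..
    have hfγ : (f : ℤ) ∣ Q.Y γ := by
      rw [← hg]; exact Int.gcd_dvd_right ..
    have hIA : a ∈ IA K Y := ⟨hA.ne, hA.pa, hpr, hnp', by rw [← hZr]; exact hz1,
      by rw [← hZr]; exact hz2⟩
    refine ⟨a, (f, α), hIA, hφ, hf1, hBf, ?_, ?_, ?_, hA.pL, hfα⟩
    · have h4 : IsCoprime (f : ℤ) t.2.2.2 := hcop.of_mul_right_left
      rw [hT.Z] at h4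
      exact Nat.isCoprime_iff_coprime.1 h4
    · intro θ hθ
      obtain ⟨θ', hθ', hγ⟩ := hA.ga
      obtain ⟨G, -, g2, g3, g4, -, -, -⟩ := hLFU K Q a θ' α γ hD0 hA.pa hA.ne hθ'.symm hα0
        hA.mem hA.pL hγ
      have hf0 : (f : ℤ) ≠ 0 := by
        have : 0 < f := hf1
        exact_mod_cast this.ne'
      have h5 := (G.gcd_dvd (f : ℤ) hf0 (by rw [g2]; exact hfα) (by rw [g3]; exact hfγ)).2.2.1
      rw [g4] at h5
      rcases (hLYT K Q a θ hD4 hA.ne hθ hnp').2.2 θ' hθ'.symm with h | h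
      · rw [← h]; exact h5
      · rw [h, LTD_Y_neg] at h5
        exact (dvd_neg).1 h5
    · refine ⟨hA.mem, hA.n0, ?_⟩
      rw [← hnn α]
      have h6 := (hLAW K Q a α 2 hA.pa hA.ne Nat.prime_two hα0 hA.mem).1
      rw [h6]
      push_cast
      have h7 : ((lamI a α : ℕ) : ℝ) = ((lam t : ℤ) : ℝ) := by
        rw [hT.L]; norm_num
      rw [h7]
      exact mul_le_mul_of_nonneg_left hlX (by positivity)
  have hfinIA : (IA K Y).Finite := by
    refine (Ideal.finite_setOfPred_absNorm_le (S := 𝓞 K) ⌊Y⌋₊).subset ?_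
    intro a ha
    exact Nat.le_floor ha.2.2.2.2.2
  choose! a v hkey using key
  have hfib : ∀ b ∈ hfinIA.toFinset, (((F.filter (fun t => a t = b)).card : ℕ) : ℝ) ≤
      τ * (1 + 2 * Real.pi * X / (B * √|(Q.D : ℝ)|)) := by
    intro b hb
    rw [Set.Finite.mem_toFinset] at hb
    obtain ⟨hbot, hprim, hprin, hnp, hZ1, hZ2⟩ := hb
    obtain ⟨θ, hθ⟩ := hprin.principal
    have hθ' : Ideal.span {θ} = b ^ 5 := hθ.symm
    obtain ⟨hYθ, hYθ2, -⟩ := hLYT K Q b θ hD4 hbot hθ' hnp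
    have hinj : Set.InjOn v (F.filter (fun t => a t = b) : Set Tpl) := by
      intro t ht s hs hts
      rw [Finset.mem_coe, Finset.mem_filter] at ht hs
      have e1 := (hkey t ht.1).2.1
      have e2 := (hkey s hs.1).2.1
      rw [← e1, ← e2, ht.2, hs.2, hts]
    rw [← Finset.card_image_of_injOn hinj]
    have h8 := hLT4 K Q b (Q.Y θ) B X hD0 hbot hYθ hB hX
      ((F.filter (fun t => a t = b)).image v) ?_
    · refine h8.trans ?_
      refine mul_le_mul_of_nonneg_right ?_ (by positivity)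
      refine hdiv (Q.Y θ) hYθ (hYθ2.trans ?_)
      have h5 : (Ideal.absNorm b : ℝ) ^ 5 ≤ Y ^ 5 :=
        pow_le_pow_left₀ (Nat.cast_nonneg _) hZ2 5
      linarith
    · intro w hw
      rw [Finset.mem_image] at hw
      obtain ⟨t, ht, rfl⟩ := hw
      rw [Finset.mem_filter] at ht
      obtain ⟨-, -, g3, g4, g5, g6, g7, g8, g9⟩ := hkey t ht.1
      rw [ht.2] at g5 g6 g7 g8
      exact ⟨g3, g4, g5, g6 θ hθ', g7, g8, g9⟩
  have hmaps : ∀ t ∈ F, a t ∈ hfinIA.toFinset := by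
    intro t ht
    rw [Set.Finite.mem_toFinset]
    exact (hkey t ht).1
  rw [Finset.card_eq_sum_card_fiberwise hmaps, Nat.cast_sum]
  refine (Finset.sum_le_sum hfib).trans ?_
  rw [Finset.sum_const, nsmul_eq_mul, Set.ncard_eq_toFinset_card _ hfinIA]

end Pool.Agent.helper26.T5
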